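import Pool.Agent.Helper45.LGB.St

/-!
# Project LGB, module NLX: the nil degree drops on the image of `x`
-/

set_option autoImplicit false

namespace Pool.Agent.Helper67.LGB

open Pool.Agent.Helper45.LGB
open scoped BigOperators

/-- A product of operators preserving a submodule preserves it. -/
private lemma nlx_list {p : ℕ} {V : Type} [AddCommGroup V] [Module (ZMod p) V]
    (W' : Submodule (ZMod p) V) (L : List (Module.End (ZMod p) V))
    (h : ∀ l ∈ L, ∀ w ∈ W', l w ∈ W') (w : V) (hw : w ∈ W') : L.prod w ∈ W' := by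
  induction L with
  | nil => simpa using hw
  | cons a L ih =>
    rw [List.prod_cons, Module.End.mul_apply]
    exact h a List.mem_cons_self _ (ih fun l hl => h l (List.mem_cons_of_mem a hl))

/-- An operator commuting with all factors commutes with the product. -/
private lemma nlx_comm {A : Type} [Ring A] (x : A) (L : List A)
    (h : ∀ l ∈ L, x * l = l * x) : x * L.prod = L.prod * x := by
  induction L with
  | nil => simp
  | cons a L ih =>
    rw [List.prod_cons, ← mul_assoc, h a List.mem_cons_self, mul_assoc,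
      ih fun l hl => h l (List.mem_cons_of_mem a hl), mul_assoc]

/-- The symmetrised product with an element commuting with all others. -/
private lemma nlx_sum (hPRM : StPRM) {A : Type} [Ring A] (m : ℕ) (x : A) (d : Fin m → A)
    (h : ∀ i, x * d i = d i * x) :
    ∑ σ : Equiv.Perm (Fin (m + 1)),
      (List.ofFn fun i => (Fin.cons x d : Fin (m + 1) → A) (σ i)).prod =
    (m + 1) • ((∑ τ : Equiv.Perm (Fin m), (List.ofFn fun i => d (τ i)).prod) * x) := by
  rw [hPRM A m x d]
  have key : ∀ j ∈ Finset.range (m + 1), ∑ τ : Equiv.Perm (Fin m),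
      ((List.ofFn fun i => d (τ i)).take j).prod * x * ((List.ofFn fun i => d (τ i)).drop j).prod =
      (∑ τ : Equiv.Perm (Fin m), (List.ofFn fun i => d (τ i)).prod) * x := by
    intro j _
    rw [Finset.sum_mul]
    refine Finset.sum_congr rfl fun τ _ => ?_
    rw [mul_assoc, nlx_comm x, ← mul_assoc, List.prod_take_mul_prod_drop]
    intro l hl
    have hl' := List.mem_of_mem_drop hl
    rw [List.mem_ofFn] at hl'
    obtain ⟨i, rfl⟩ := hl'
    exact h _
  rw [Finset.sum_congr rfl key, Finset.sum_const, Finset.card_range]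

/-- NLX: the nil degree drops on the image of `x`. -/
theorem hNLX (hPRM : StPRM) (hLST : StLST) : StNLX := by
  intro p m _ ι E V _ _ f Y W W' x hm hC hx
  obtain ⟨hS, hCm, hWW, hW, hW', hN⟩ := hC
  obtain ⟨-, -, -, h4, -⟩ := hLST p ι V f {y | y ∈ Y ∧ ¬ E x y}
  obtain ⟨h1, h2, -⟩ := hLST p ι V f Y
  have hsub : {y | y ∈ Y ∧ ¬ E x y} ⊆ Y := fun y hy => hy.1
  refine ⟨⟨hS, hCm, le_sup_right, ?_, fun y hy => hW' y hy.1, ?_⟩, ?_⟩
  · intro y hy w hw
    obtain ⟨a, ha, b, hb, rfl⟩ := Submodule.mem_sup.1 hw
    obtain ⟨c, hc, rfl⟩ := Submodule.mem_map.1 ha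
    rw [map_add]
    refine Submodule.add_mem _ (Submodule.mem_sup_left ?_)
      (Submodule.mem_sup_right (hW' y hy.1 b hb))
    have e : f y (f x c) = f x (f y c) := by
      have := hCm x y hy.2
      have h' := LinearMap.congr_fun this c
      simpa [Module.End.mul_apply] using h'.symm
    rw [e]
    exact Submodule.mem_map_of_mem (hW y hy.1 c hc)
  · intro l hl w hw
    obtain ⟨a, ha, b, hb, rfl⟩ := Submodule.mem_sup.1 hw
    obtain ⟨c, hc, rfl⟩ := Submodule.mem_map.1 ha
    have hl' : ∀ i, Lam f Y (l i) := fun i => h2 _ hsub _ (hl i)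
    rw [map_add]
    refine Submodule.add_mem _ ?_ ?_
    · have hcom : ∀ i, f x * l i = l i * f x := fun i => h4 (f x) (fun z hz => hCm x z hz.2) _ (hl i)
      have hmem := hN (Fin.cons (f x) l) (fun i => by
        refine Fin.cases ?_ (fun j => ?_) i
        · exact Lam.gen x hx
        · exact hl' j) c hc
      rw [nlx_sum hPRM m (f x) l hcom] at hmem
      have hne : ((m + 1 : ℕ) : ZMod p) ≠ 0 := by
        intro h0
        rw [ZMod.natCast_eq_zero_iff] at h0
        exact absurd (Nat.le_of_dvd (Nat.succ_pos m) h0) (not_le.2 hm)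
      rw [LinearMap.smul_apply, ← Nat.cast_smul_eq_nsmul (ZMod p), Submodule.smul_mem_iff _ hne,
        Module.End.mul_apply] at hmem
      exact hmem
    · rw [LinearMap.sum_apply]
      refine Submodule.sum_mem _ fun σ _ => ?_
      refine nlx_list W' _ ?_ b hb
      intro g hg v hv
      rw [List.mem_ofFn] at hg
      obtain ⟨i, rfl⟩ := hg
      exact h1 W' hW' _ (hl' _) v hv
  · refine sup_le ?_ hWW
    rintro _ ⟨c, hc, rfl⟩
    exact hW x hx c hc

end Pool.Agent.Helper67.LGB
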